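import Pool.Agent.H87.QP.Targets
import Pool.Agent.H81.DE.SUM
import Pool.Agent.H46.DE.DCR
import Pool.Agent.H46.DE.UNI

/-!
# MP_c59857_nt, row LVS: the decrement between two octaves, longer words
-/

set_option autoImplicit false

open Finset Pool.Agent.H18.MR Pool.Agent.H93.DE Pool.Agent.H6.N4D Pool.Agent.H93
  Pool.Agent.H93.ES Pool.Agent.H87.QP

namespace Pool.Agent.H31.QP

theorem lvs_of (hD : T_DCR) : T_LVS := by
  intro γ _ _ N a b cc _ x hab hN
  have key : ∀ m, m < b →
      info x (2 ^ (m + cc)) (primorial (2 ^ m)) (pr m) / 2 ^ (m + cc) ≤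
        hc x (2 ^ (m + cc)) (primorial (2 ^ m)) / 2 ^ (m + cc) -
          hc x (2 ^ (m + 1 + cc)) (primorial (2 ^ (m + 1))) / 2 ^ (m + 1 + cc) := by
    intro m hm
    have h1 : primorial (2 ^ m) * pr m ∣ N := by
      rw [← H81.DE.prim_succ]
      exact (H81.DE.prim_dvd (Nat.pow_le_pow_right (by norm_num) hm)).trans hN
    have h2 := hD γ N (primorial (2 ^ m)) (pr m) (2 ^ (m + cc)) x (primorial_pos _)
      (H81.DE.pr_pos m) (H81.DE.prim_coprime m) h1
    have h3 : 2 * (2 ^ (m + cc)) = 2 ^ (m + 1 + cc) := by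
      rw [show m + 1 + cc = (m + cc) + 1 by ring, pow_succ]
      ring
    rw [h3, ← H81.DE.prim_succ] at h2
    have h4 : (2 : ℝ) ^ (m + 1 + cc) = 2 * 2 ^ (m + cc) := by
      rw [show m + 1 + cc = (m + cc) + 1 by ring, pow_succ]
      ring
    have h5 : (0 : ℝ) < 2 ^ (m + cc) := by positivity
    rw [h4, le_sub_iff_add_le, ← sub_nonneg]
    have h6 : hc x (2 ^ (m + cc)) (primorial (2 ^ m)) / 2 ^ (m + cc) -
        (info x (2 ^ (m + cc)) (primorial (2 ^ m)) (pr m) / 2 ^ (m + cc) +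
          hc x (2 ^ (m + 1 + cc)) (primorial (2 ^ (m + 1))) / (2 * 2 ^ (m + cc))) =
        (2 * (hc x (2 ^ (m + cc)) (primorial (2 ^ m)) -
          info x (2 ^ (m + cc)) (primorial (2 ^ m)) (pr m)) -
          hc x (2 ^ (m + 1 + cc)) (primorial (2 ^ (m + 1)))) / (2 * 2 ^ (m + cc)) := by
      field_simp
      ring
    rw [h6]
    exact div_nonneg (by linarith) (by positivity)
  have tel : ∀ c, a ≤ c → c ≤ b →
      ∑ m ∈ Ico a c, info x (2 ^ (m + cc)) (primorial (2 ^ m)) (pr m) / 2 ^ (m + cc) ≤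
        hc x (2 ^ (a + cc)) (primorial (2 ^ a)) / 2 ^ (a + cc) -
          hc x (2 ^ (c + cc)) (primorial (2 ^ c)) / 2 ^ (c + cc) := by
    intro c hac
    induction c, hac using Nat.le_induction with
    | base =>
      intro _
      simp
    | succ c hac ih =>
      intro hcb
      rw [Finset.sum_Ico_succ_top hac]
      have := ih (by omega)
      have := key c (by omega)
      linarith
  exact tel b hab le_rfl

theorem pf_LVS : T_LVS := lvs_of (Pool.Agent.H46.DE.pf_DCR Pool.Agent.H46.DE.pf_UNI)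

end Pool.Agent.H31.QP
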